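import Pool.Agent.TH777.HT23.Pot
import Pool.Agent.H645R2.C3.Comp

/-!
A 2-colouring all of whose homogeneous sets for sums of at most three terms compute `0'`:
the combinatorial part.
-/

namespace Pool.Agent.TH777.HT23

open Pool.Agent.Helper446 Pool.Agent.Helper446.RE Pool.Agent.Helper446.Oracle
open Pool.Agent.H645R2.C3 (Mon Ev Ev_iff exists_stage)

/-! ### Base 7 -/

/-- The exponent of `7` in `n`. -/
def va (n : ℕ) : ℕ := n.factorization 7

/-- The part of `n` prime to `7`. -/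
def ua (n : ℕ) : ℕ := n / 7 ^ va n

theorem eq_mul {n : ℕ} : 7 ^ va n * ua n = n := Nat.ordProj_mul_ordCompl_eq_self n 7

theorem not_dvd_ua {n : ℕ} (hn : 0 < n) : ¬ 7 ∣ ua n :=
  Nat.not_dvd_ordCompl (by norm_num) hn.ne'

theorem va_mul {v u : ℕ} (hu : ¬ 7 ∣ u) : va (7 ^ v * u) = v := by
  have hu0 : u ≠ 0 := fun h => hu (h ▸ dvd_zero 7)
  unfold va
  rw [Nat.factorization_mul (by positivity) hu0, Nat.Prime.factorization_pow (by norm_num)]
  simp [Nat.factorization_eq_zero_of_not_dvd hu]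

theorem ua_mul {v u : ℕ} (hu : ¬ 7 ∣ u) : ua (7 ^ v * u) = u := by
  unfold ua
  rw [va_mul hu, Nat.mul_div_cancel_left _ (by positivity)]

/-- The cubic residue character modulo `7` (with values `0, 1, 2`). -/
def chi (u : ℕ) : ℕ := if u * u % 7 = 1 then 0 else if u * u % 7 = 4 then 1 else 2

theorem chi_congr {u w : ℕ} (h : u % 7 = w % 7) : chi u = chi w := by
  unfold chi
  rw [Nat.mul_mod, h, ← Nat.mul_mod]

theorem chi_spec {u : ℕ} (hu : ¬ 7 ∣ u) :
    chi u < 3 ∧ chi (2 * u) = (chi u + 1) % 3 ∧ chi (3 * u) = (chi u + 2) % 3 := by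
  have h1 : chi u = chi (u % 7) := chi_congr (by simp)
  have h2 : chi (2 * u) = chi (2 * (u % 7)) := chi_congr (by simp [Nat.mul_mod])
  have h3 : chi (3 * u) = chi (3 * (u % 7)) := chi_congr (by simp [Nat.mul_mod])
  rw [h1, h2, h3]
  have h4 : u % 7 < 7 := Nat.mod_lt _ (by norm_num)
  have h5 : u % 7 ≠ 0 := fun h => hu (Nat.dvd_of_mod_eq_zero h)
  generalize u % 7 = r at h4 h5
  interval_cases r <;> first | exact absurd rfl h5 | decide

/-- The parity of the largest integer `≤ f` which is congruent to `c` modulo `3`. -/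
def par (f c : ℕ) : ℕ := (f + (f + 2 * c) % 3) % 2

theorem par_flip (f c : ℕ) : par (f + 3) c ≠ par f c := by
  unfold par
  have h : (f + 3 + 2 * c) % 3 = (f + 2 * c) % 3 := by omega
  rw [h]
  generalize (f + 2 * c) % 3 = k
  omega

theorem par_mod (f c : ℕ) : par f c = par (f % 6) c := by
  unfold par
  have h : (f % 6 + 2 * c) % 3 = (f + 2 * c) % 3 := by omega
  rw [h]
  generalize (f + 2 * c) % 3 = k
  omega

theorem par_table : ∀ (c : Fin 3) (r : Fin 6) (a b : Fin 3), a.val ≤ b.val + 1 → b.val ≤ a.val + 1 →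
    ¬ (par r.val c.val = par ((r.val + a.val + 5) % 6) ((c.val + 1) % 3) ∧
      par r.val c.val = par ((r.val + b.val + 5) % 6) ((c.val + 2) % 3)) := by decide

theorem par_nae {f1 f2 f3 c : ℕ} (hc : c < 3) (h12 : f1 ≤ f2 + 1) (h21 : f2 ≤ f1 + 1)
    (h13 : f1 ≤ f3 + 1) (h31 : f3 ≤ f1 + 1) (h23 : f2 ≤ f3 + 1) (h32 : f3 ≤ f2 + 1) :
    ¬ (par f1 c = par f2 ((c + 1) % 3) ∧ par f1 c = par f3 ((c + 2) % 3)) := by
  have h := par_table ⟨c, hc⟩ ⟨f1 % 6, Nat.mod_lt _ (by norm_num)⟩ ⟨f2 + 1 - f1, by omega⟩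
    ⟨f3 + 1 - f1, by omega⟩ (by simp only; omega) (by simp only; omega)
  simp only at h
  rw [par_mod f1, par_mod f2, par_mod f3]
  have e2 : (f1 % 6 + (f2 + 1 - f1) + 5) % 6 = f2 % 6 := by omega
  have e3 : (f1 % 6 + (f3 + 1 - f1) + 5) % 6 = f3 % 6 := by omega
  rw [e2, e3] at h
  exact h

theorem inf_fiber {S : Set ℕ} (hS : S.Infinite) (f : ℕ → ℕ) {M : ℕ} (hf : ∀ x ∈ S, f x < M) :
    ∃ r, {x | x ∈ S ∧ f x = r}.Infinite := by
  by_contra hcon
  push Not at hcon
  apply hS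
  have h1 : S ⊆ ⋃ r ∈ Set.Iio M, {x | x ∈ S ∧ f x = r} := by
    intro x hx
    simp only [Set.mem_iUnion]
    exact ⟨f x, hf x hx, hx, rfl⟩
  refine Set.Finite.subset ?_ h1
  refine Set.Finite.biUnion (Set.finite_Iio M) fun r _ => ?_
  exact hcon r

/-! ### The colouring -/

/-- Some `z < v` is enumerated between the stages `s` and `s + 1`. -/
def chW (W : ℕ → ℕ → Bool) (v s : ℕ) : Bool := Ev W v s (s + 1)

/-- The colour of `7 ^ v * u`. -/
noncomputable def colv (ch : ℕ → Bool) (u : ℕ) : ℕ := par (Nat.log 6 (E ch u)) (chi u)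

/-- The colour. -/
noncomputable def col (W : ℕ → ℕ → Bool) (n : ℕ) : ℕ := colv (chW W (va n)) (ua n)

theorem col_mul {W : ℕ → ℕ → Bool} {v u : ℕ} (hu : ¬ 7 ∣ u) :
    col W (7 ^ v * u) = colv (chW W v) u := by
  unfold col
  rw [va_mul hu, ua_mul hu]

theorem log_le {ch : ℕ → Bool} {A B u w : ℕ} (hA : 0 < A) (hB : 0 < B) (hAB : A * B ≤ 6)
    (h : A * u = B * w) : Nat.log 6 (E ch u) ≤ Nat.log 6 (E ch w) + 1 := by
  have h1 : E ch u ≤ E ch w * 6 := by
    calc E ch u ≤ A * B * E ch w := E_lip ch hA hB h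
      _ ≤ 6 * E ch w := Nat.mul_le_mul_right _ hAB
      _ = E ch w * 6 := mul_comm _ _
  calc Nat.log 6 (E ch u) ≤ Nat.log 6 (E ch w * 6) := Nat.log_mono_right h1
    _ = Nat.log 6 (E ch w) + 1 := Nat.log_mul_base (by norm_num) (E_pos ch w).ne'

theorem colv_nae {ch : ℕ → Bool} {u : ℕ} (hu : ¬ 7 ∣ u) :
    ¬ (colv ch u = colv ch (2 * u) ∧ colv ch u = colv ch (3 * u)) := by
  obtain ⟨h0, h2, h3⟩ := chi_spec hu
  unfold colv
  rw [h2, h3]
  refine par_nae h0 ?_ ?_ ?_ ?_ ?_ ?_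
  · exact log_le (A := 2) (B := 1) (by norm_num) (by norm_num) (by norm_num) (by ring)
  · exact log_le (A := 1) (B := 2) (by norm_num) (by norm_num) (by norm_num) (by ring)
  · exact log_le (A := 3) (B := 1) (by norm_num) (by norm_num) (by norm_num) (by ring)
  · exact log_le (A := 1) (B := 3) (by norm_num) (by norm_num) (by norm_num) (by ring)
  · exact log_le (A := 3) (B := 2) (by norm_num) (by norm_num) (by norm_num) (by ring)
  · exact log_le (A := 2) (B := 3) (by norm_num) (by norm_num) (by norm_num) (by ring)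

/-- The colour of large numbers is determined by a residue. -/
theorem exists_period (ch : ℕ → Bool) (N : ℕ) :
    ∃ M > 0, ∀ u w, M ≤ u → M ≤ w → u % M = w % M → Es ch N u = Es ch N w := by
  induction N with
  | zero => exact ⟨1, Nat.one_pos, fun u w _ _ _ => rfl⟩
  | succ N ih =>
    by_cases hc : ch N = true
    · refine ⟨Mo N, Nat.pow_pos (by norm_num), fun u w hu hw h => ?_⟩
      simp only [Es, if_pos hc]
      exact F_periodic (Es_pos ch N) hu hw h
    · obtain ⟨M, hM, h⟩ := ih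
      refine ⟨M, hM, fun u w hu hw h2 => ?_⟩
      simp only [Es, if_neg hc]
      exact h u w hu hw h2

theorem exists_colv_period {ch : ℕ → Bool} {N : ℕ} (hN : ∀ s, N ≤ s → ch s = false) :
    ∃ M > 0, 7 ∣ M ∧ ∀ u w, M ≤ u → M ≤ w → u % M = w % M → colv ch u = colv ch w := by
  obtain ⟨M, hM, h⟩ := exists_period ch N
  refine ⟨7 * (M * (N + 1)), by positivity, ⟨_, rfl⟩, fun u w hu hw h2 => ?_⟩
  have hM1 : M ≤ 7 * (M * (N + 1)) := by
    calc M = 1 * (M * 1) := by ring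
      _ ≤ 7 * (M * (N + 1)) := Nat.mul_le_mul (by norm_num) (Nat.mul_le_mul_left _ (by omega))
  have hN1 : N ≤ 7 * (M * (N + 1)) := by
    calc N ≤ 1 * (1 * (N + 1)) := by omega
      _ ≤ 7 * (M * (N + 1)) := Nat.mul_le_mul (by norm_num) (Nat.mul_le_mul_right _ hM)
  have e0 : M ∣ 7 * (M * (N + 1)) := ⟨7 * (N + 1), by ring⟩
  have e1 : u % M = w % M := by
    rw [← Nat.mod_mod_of_dvd u e0, h2, Nat.mod_mod_of_dvd w e0]
  have e7 : 7 ∣ 7 * (M * (N + 1)) := ⟨_, rfl⟩
  have e2 : u % 7 = w % 7 := by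
    rw [← Nat.mod_mod_of_dvd u e7, h2, Nat.mod_mod_of_dvd w e7]
  have e3 : E ch u = E ch w := by
    have h5 : ∀ x, 7 * (M * (N + 1)) ≤ x → E ch x = Es ch N x := fun x hx =>
      Es_const (hN1.trans hx) (fun r hr _ => hN r hr) x
    rw [h5 u hu, h5 w hw]
    exact h u w (hM1.trans hu) (hM1.trans hw) e1
  unfold colv
  rw [e3, chi_congr e2]

variable {W : ℕ → ℕ → Bool}

theorem ch_false {v N : ℕ} (hN : ∀ z < v, ∀ s, W s z = true → W N z = true) (hW : Mon W)
    {s : ℕ} (hs : N ≤ s) : chW W v s = false := by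
  rw [← Bool.not_eq_true]
  unfold chW
  rw [Ev_iff]
  rintro ⟨z, hz, h1, h2⟩
  rw [hW _ _ _ hs (hN z hz _ h1)] at h2
  cases h2

/-- Elements with the same exponent of `7`: finitely many. -/
theorem finite_fiber (hW : Mon W) {X : Set ℕ}
    (hc2 : ∀ x ∈ X, ∀ y ∈ X, 0 < x → 0 < y → x ≠ y → col W x = col W (x + y))
    (hc3 : ∀ x ∈ X, ∀ y ∈ X, ∀ w ∈ X, 0 < x → 0 < y → 0 < w → x ≠ y → x ≠ w → y ≠ w →
      col W x = col W (x + y + w)) (p : ℕ) :
    {x | x ∈ X ∧ 0 < x ∧ va x = p}.Finite := by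
  by_contra hinf
  obtain ⟨N, hN⟩ := exists_stage hW p
  obtain ⟨M, hM, h7, hper⟩ := exists_colv_period (ch := chW W p) fun s hs => ch_false hN hW hs
  have hinf2 : {x | (x ∈ X ∧ 0 < x ∧ va x = p) ∧ M ≤ ua x}.Infinite := by
    intro hfin
    apply hinf
    refine (hfin.union (Set.finite_Iio (7 ^ p * M))).subset ?_
    intro x hx
    by_cases h : M ≤ ua x
    · exact Or.inl ⟨hx, h⟩
    · right
      rw [Set.mem_Iio, ← eq_mul (n := x), hx.2.2]
      exact Nat.mul_lt_mul_of_pos_left (not_le.1 h) (by positivity)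
  obtain ⟨r, hr⟩ := inf_fiber hinf2 (fun x => ua x % M) (M := M) (fun x _ => Nat.mod_lt _ hM)
  obtain ⟨T, hT, hT3⟩ := hr.exists_subset_card_eq 3
  obtain ⟨x, y, w, hxy, hxw, hyw, rfl⟩ := Finset.card_eq_three.1 hT3
  have hx := hT (show x ∈ ((({x, y, w} : Finset ℕ)) : Set ℕ) by simp)
  have hy := hT (show y ∈ ((({x, y, w} : Finset ℕ)) : Set ℕ) by simp)
  have hw := hT (show w ∈ ((({x, y, w} : Finset ℕ)) : Set ℕ) by simp)
  obtain ⟨⟨⟨hxX, hx0, hxp⟩, hxM⟩, hxr⟩ := hx
  obtain ⟨⟨⟨hyX, hy0, hyp⟩, hyM⟩, hyr⟩ := hy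
  obtain ⟨⟨⟨hwX, hw0, hwp⟩, hwM⟩, hwr⟩ := hw
  have h7x := not_dvd_ua hx0
  have ex : x = 7 ^ p * ua x := by rw [← hxp]; exact eq_mul.symm
  have ey : y = 7 ^ p * ua y := by rw [← hyp]; exact eq_mul.symm
  have ew : w = 7 ^ p * ua w := by rw [← hwp]; exact eq_mul.symm
  have m2 : (ua x + ua y) % M = (2 * ua x) % M := by
    rw [Nat.add_mod, hyr, ← hxr, ← Nat.add_mod, two_mul]
  have m3 : (ua x + ua y + ua w) % M = (3 * ua x) % M := by
    rw [Nat.add_mod, m2, hwr, ← hxr, ← Nat.add_mod]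
    congr 1
    ring
  have n2 : ¬ 7 ∣ ua x + ua y := by
    intro h
    have h1 : (2 * ua x) % 7 = 0 := by
      rw [← Nat.mod_mod_of_dvd (2 * ua x) h7, ← m2, Nat.mod_mod_of_dvd _ h7]
      exact Nat.mod_eq_zero_of_dvd h
    omega
  have n3 : ¬ 7 ∣ ua x + ua y + ua w := by
    intro h
    have h1 : (3 * ua x) % 7 = 0 := by
      rw [← Nat.mod_mod_of_dvd (3 * ua x) h7, ← m3, Nat.mod_mod_of_dvd _ h7]
      exact Nat.mod_eq_zero_of_dvd h
    omega
  have c1 : col W x = colv (chW W p) (ua x) := by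
    conv_lhs => rw [ex]
    exact col_mul h7x
  have c2 : col W (x + y) = colv (chW W p) (2 * ua x) := by
    have : x + y = 7 ^ p * (ua x + ua y) := by rw [mul_add, ← ex, ← ey]
    rw [this, col_mul n2]
    exact hper _ _ (by omega) (by omega) m2
  have c3 : col W (x + y + w) = colv (chW W p) (3 * ua x) := by
    have : x + y + w = 7 ^ p * (ua x + ua y + ua w) := by
      rw [mul_add, mul_add, ← ex, ← ey, ← ew]
    rw [this, col_mul n3]
    exact hper _ _ (by omega) (by omega) m3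
  have d2 := hc2 x hxX y hyX hx0 hy0 hxy
  have d3 := hc3 x hxX y hyX w hwX hx0 hy0 hw0 hxy hxw hyw
  rw [c1, c2] at d2
  rw [c1, c3] at d3
  exact colv_nae h7x ⟨d2, d3⟩

theorem exists_far (hW : Mon W) {X : Set ℕ} (hX : X.Infinite)
    (hc2 : ∀ x ∈ X, ∀ y ∈ X, 0 < x → 0 < y → x ≠ y → col W x = col W (x + y))
    (hc3 : ∀ x ∈ X, ∀ y ∈ X, ∀ w ∈ X, 0 < x → 0 < y → 0 < w → x ≠ y → x ≠ w → y ≠ w →
      col W x = col W (x + y + w)) (N : ℕ) :
    ∃ x ∈ X, 0 < x ∧ N < va x := by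
  by_contra hcon
  push Not at hcon
  apply hX
  have h1 : X ⊆ {0} ∪ ⋃ p ∈ Set.Iic N, {x | x ∈ X ∧ 0 < x ∧ va x = p} := by
    intro x hx
    rcases Nat.eq_zero_or_pos x with h | h
    · left; exact h
    · right
      simp only [Set.mem_iUnion]
      exact ⟨va x, hcon x hx h, hx, h, rfl⟩
  refine Set.Finite.subset ((Set.finite_singleton 0).union ?_) h1
  exact Set.Finite.biUnion (Set.finite_Iic N) fun p _ => finite_fiber hW hc2 hc3 p

/-- No stage after `ua x` is marked. -/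
theorem no_mark (hW : Mon W) {X : Set ℕ} (hX : X.Infinite)
    (hc2 : ∀ x ∈ X, ∀ y ∈ X, 0 < x → 0 < y → x ≠ y → col W x = col W (x + y))
    (hc3 : ∀ x ∈ X, ∀ y ∈ X, ∀ w ∈ X, 0 < x → 0 < y → 0 < w → x ≠ y → x ≠ w → y ≠ w →
      col W x = col W (x + y + w)) {x : ℕ} (hx : x ∈ X) (hx0 : 0 < x) {s : ℕ}
    (hs : ua x ≤ s) : chW W (va x) s = false := by
  by_contra hcon
  rw [Bool.not_eq_false] at hcon
  obtain ⟨N, hN⟩ := exists_stage hW (va x)
  -- the last marked stage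
  obtain ⟨t, ⟨ht1, ht2⟩, hmax⟩ : ∃ t, (ua x ≤ t ∧ chW W (va x) t = true) ∧
      ∀ r, t < r → chW W (va x) r = false := by
    classical
    have hb : ∀ r, chW W (va x) r = true → r ≤ N := by
      intro r hr
      by_contra hlt
      rw [ch_false hN hW (by omega)] at hr
      cases hr
    have hex : ∃ t, ua x ≤ t ∧ chW W (va x) t = true := ⟨s, hs, hcon⟩
    refine ⟨Nat.findGreatest (fun t => ua x ≤ t ∧ chW W (va x) t = true) N, ?_, ?_⟩
    · exact Nat.findGreatest_spec (P := fun t => ua x ≤ t ∧ chW W (va x) t = true)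
        (hb s hcon) ⟨hs, hcon⟩
    · intro r hr
      by_contra hcc
      rw [Bool.not_eq_false] at hcc
      have h1 := Nat.findGreatest_is_greatest
        (P := fun t => ua x ≤ t ∧ chW W (va x) t = true) hr (hb r hcc)
      have h2 : Nat.findGreatest (fun t => ua x ≤ t ∧ chW W (va x) t = true) N ≥ s :=
        Nat.le_findGreatest (hb s hcon) ⟨hs, hcon⟩
      exact h1 ⟨by omega, hcc⟩
  obtain ⟨y, hy, hy0, hyv⟩ := exists_far hW hX hc2 hc3 (va x + 4 * (t + 1))
  have hne : x ≠ y := by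
    rintro rfl
    omega
  obtain ⟨e, he⟩ := Nat.exists_eq_add_of_le (show va x + 4 * (t + 1) ≤ va y by omega)
  set w := 7 ^ e * ua y with hw
  have hwpos : 0 < w := by
    have h1 : 0 < ua y := by
      rcases Nat.eq_zero_or_pos (ua y) with h | h
      · exact absurd (h ▸ dvd_zero 7) (not_dvd_ua hy0)
      · exact h
    positivity
  have hMo : Mo t = 7 ^ (4 * (t + 1)) := by
    unfold Mo
    rw [pow_mul]
    norm_num
  have ey : y = 7 ^ va x * (Mo t * w) := by
    conv_lhs => rw [← eq_mul (n := y)]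
    rw [he, hMo, hw, pow_add, pow_add]
    ring
  have esum : x + y = 7 ^ va x * (ua x + Mo t * w) := by
    rw [mul_add, ← ey, eq_mul]
  have h7M : 7 ∣ Mo t := by
    rw [hMo]
    exact dvd_pow_self 7 (by omega)
  have h7x := not_dvd_ua hx0
  have h7s : ¬ 7 ∣ ua x + Mo t * w := by
    rw [← Nat.dvd_add_iff_left (h7M.mul_right w)]
    exact h7x
  have d := hc2 x hx y hy hx0 hy0 hne
  rw [esum, col_mul h7s] at d
  have hbig : t + 1 ≤ ua x + Mo t * w := by
    have h1 : t + 1 ≤ Mo t := (Nat.lt_pow_self (by norm_num)).le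
    have h2 : Mo t ≤ Mo t * w := Nat.le_mul_of_pos_right _ hwpos
    omega
  have hE : E (chW W (va x)) (ua x + Mo t * w) = 216 * E (chW W (va x)) (ua x) := by
    have h1 : E (chW W (va x)) (ua x + Mo t * w) =
        Es (chW W (va x)) (t + 1) (ua x + Mo t * w) :=
      Es_const hbig (fun r hr _ => hmax r (by omega)) _
    rw [h1, Es_null ht2 ht1 hwpos, E_eq _ ht1]
  have hchi : chi (ua x + Mo t * w) = chi (ua x) := by
    apply chi_congr
    rw [Nat.add_mod, Nat.mod_eq_zero_of_dvd (h7M.mul_right w)]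
    simp
  have hlog : Nat.log 6 (216 * E (chW W (va x)) (ua x)) =
      Nat.log 6 (E (chW W (va x)) (ua x)) + 3 := by
    have h0 := (E_pos (chW W (va x)) (ua x)).ne'
    have e1 : 216 * E (chW W (va x)) (ua x) = E (chW W (va x)) (ua x) * 6 * 6 * 6 := by ring
    rw [e1, Nat.log_mul_base (by norm_num) (by positivity),
      Nat.log_mul_base (by norm_num) (by positivity), Nat.log_mul_base (by norm_num) h0]
  unfold col at d
  unfold colv at d
  rw [hE, hchi, hlog] at d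
  exact par_flip _ _ d.symm

/-- Every element of a solution bounds the modulus. -/
theorem settled (hW : Mon W) {X : Set ℕ} (hX : X.Infinite)
    (hc2 : ∀ x ∈ X, ∀ y ∈ X, 0 < x → 0 < y → x ≠ y → col W x = col W (x + y))
    (hc3 : ∀ x ∈ X, ∀ y ∈ X, ∀ w ∈ X, 0 < x → 0 < y → 0 < w → x ≠ y → x ≠ w → y ≠ w →
      col W x = col W (x + y + w)) {x : ℕ} (hx : x ∈ X) (hx0 : 0 < x) {z s : ℕ}
    (hz : z < va x) (hs : W s z = true) : W (ua x) z = true := by
  have key : ∀ t, W (ua x + t) z = true → W (ua x) z = true := by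
    intro t
    induction t with
    | zero => exact fun h => h
    | succ t ih =>
      intro h
      apply ih
      by_contra hcon
      rw [Bool.not_eq_true] at hcon
      have h1 := no_mark hW hX hc2 hc3 hx hx0 (s := ua x + t) (by omega)
      have h2 : chW W (va x) (ua x + t) = true := by
        unfold chW
        rw [Ev_iff]
        exact ⟨z, hz, h, hcon⟩
      rw [h1] at h2
      cases h2
  exact key s (hW _ _ _ (by omega) hs)

end Pool.Agent.TH777.HT23
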