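import Pool.Agent.TH777.HT23.Col

/-! Computability of the colouring, and the theorem. -/

namespace Pool.Agent.TH777.HT23

open Pool.Agent.Helper446 Pool.Agent.Helper446.RE Pool.Agent.Helper446.Oracle
open Pool.Agent.H645R2.C3 (Mon Ev Ev_iff exists_stage W0 mon_W0 c_W0 univ_W0)

section basic

variable {α : Type*} [Primcodable α]

@[fun_prop] theorem c_deq {f g : α → ℕ} (hf : Computable f) (hg : Computable g) :
    Computable fun a => decide (f a = g a) := cdecide (cp_eq hf hg)

@[fun_prop] theorem c_dlt {f g : α → ℕ} (hf : Computable f) (hg : Computable g) :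
    Computable fun a => decide (f a < g a) := cdecide (cp_lt hf hg)

@[fun_prop] theorem c_dle {f g : α → ℕ} (hf : Computable f) (hg : Computable g) :
    Computable fun a => decide (f a ≤ g a) := cdecide (cp_le hf hg)

@[fun_prop] theorem c_mod {f g : α → ℕ} (hf : Computable f) (hg : Computable g) :
    Computable fun a => f a % g a := Primrec.nat_mod.to_comp.comp hf hg

@[fun_prop] theorem c_div {f g : α → ℕ} (hf : Computable f) (hg : Computable g) :
    Computable fun a => f a / g a := Primrec.nat_div.to_comp.comp hf hg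

theorem pr_pow (b : ℕ) : Primrec (fun i : ℕ => b ^ i) := by
  have h : Primrec (fun i : ℕ => (Nat.rec (motive := fun _ => ℕ) 1 (fun _ r => r * b) i : ℕ)) :=
    Primrec.nat_rec₁ 1 (Primrec.nat_mul.comp Primrec.snd (Primrec.const b)).to₂
  refine h.of_eq fun i => ?_
  induction i with
  | zero => rfl
  | succ i ih => rw [pow_succ, ← ih]

@[fun_prop] theorem c_pow (b : ℕ) {f : α → ℕ} (hf : Computable f) :
    Computable fun a => b ^ f a := (pr_pow b).to_comp.comp hf

@[fun_prop] theorem c_Mo {f : α → ℕ} (hf : Computable f) : Computable fun a => Mo (f a) := by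
  unfold Mo
  fun_prop

@[fun_prop] theorem c_Cap {f : α → ℕ} (hf : Computable f) : Computable fun a => Cap (f a) := by
  unfold Cap
  fun_prop

/-! ### Bounded search -/

/-- The least `i < n` with `q i`, and `n` if there is none. -/
def lst (q : ℕ → Bool) : ℕ → ℕ
  | 0 => 0
  | n + 1 => bif (decide (lst q n = n) && !(q n)) then n + 1 else lst q n

theorem lst_le (q : ℕ → Bool) (n : ℕ) : lst q n ≤ n := by
  induction n with
  | zero => exact le_rfl
  | succ n ih =>
    unfold lst
    cases decide (lst q n = n) && !(q n) <;> simp <;> omega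

theorem lst_min (q : ℕ → Bool) (n : ℕ) : ∀ i < lst q n, q i = false := by
  induction n with
  | zero => intro i hi; exact absurd hi (by simp [lst])
  | succ n ih =>
    intro i hi
    unfold lst at hi
    cases hc : decide (lst q n = n) && !(q n)
    · rw [hc] at hi
      exact ih i hi
    · rw [hc] at hi
      simp only [cond_true] at hi
      rw [Bool.and_eq_true, decide_eq_true_iff, Bool.not_eq_true'] at hc
      rcases Nat.lt_succ_iff_lt_or_eq.1 hi with h | h
      · exact ih i (by omega)
      · rw [h]; exact hc.2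

theorem lst_spec (q : ℕ → Bool) (n : ℕ) (h : lst q n < n) : q (lst q n) = true := by
  induction n with
  | zero => omega
  | succ n ih =>
    cases hc : decide (lst q n = n) && !(q n)
    · have e : lst q (n + 1) = lst q n := by
        rw [lst, hc]; rfl
      rw [e]
      rcases Nat.lt_or_ge (lst q n) n with h1 | h1
      · exact ih h1
      · have h2 : lst q n = n := le_antisymm (lst_le q n) h1
        rw [h2] at hc ⊢
        simpa using hc
    · have e : lst q (n + 1) = n + 1 := by
        rw [lst, hc]; rfl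
      omega

theorem c_lst {q : α → ℕ → Bool} (hq : Computable fun p : α × ℕ => q p.1 p.2) {f : α → ℕ}
    (hf : Computable f) : Computable fun a => lst (q a) (f a) := by
  have h := Computable.nat_rec (f := f) (g := fun _ : α => 0)
    (h := fun (a : α) (y : ℕ × ℕ) =>
      bif (decide (y.2 = y.1) && !(q a y.1)) then y.1 + 1 else y.2) hf (Computable.const 0) (by
      unfold Computable₂
      have h1 : Computable fun x : α × (ℕ × ℕ) => q x.1 x.2.1 :=
        hq.comp (g := fun x : α × (ℕ × ℕ) => (x.1, x.2.1)) (by fun_prop)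
      fun_prop)
  refine h.of_eq fun a => ?_
  generalize f a = n
  induction n with
  | zero => rfl
  | succ n ih => simp only [lst]; rw [← ih]

end basic

/-! ### The potential -/

/-- A Boolean version of `Q`. -/
def Qb (g : ℕ → ℕ) (s u k : ℕ) : Bool :=
  exB (fun m => exB (fun A => exB (fun B => decide (0 < A) && (decide (0 < B) &&
    (decide (A * u % Mo s = B * m % Mo s) &&
      decide (g m * (A * B) * (bif decide (A * u = B * m) then 1 else 216) ≤ k))))
        (k + 1)) (k + 1)) (s + 1)

theorem Qb_iff {g : ℕ → ℕ} (hg : ∀ m, 0 < g m) {s u k : ℕ} : Qb g s u k = true ↔ Q g s u k := by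
  unfold Qb
  simp only [exB_iff, Bool.and_eq_true, decide_eq_true_iff]
  constructor
  · rintro ⟨m, hm, A, _, B, _, hA, hB, h1, h2⟩
    refine ⟨m, by omega, A, hA, B, hB, h1, ?_⟩
    by_cases h : A * u = B * m <;> simpa [h] using h2
  · rintro ⟨m, hm, A, hA, B, hB, h1, h2⟩
    obtain ⟨h3, h4⟩ := small_of_le hg hA hB (by split_ifs <;> norm_num) h2
    refine ⟨m, by omega, A, by omega, B, by omega, hA, hB, h1, ?_⟩
    by_cases h : A * u = B * m <;> simpa [h] using h2

/-- A Boolean version of `F`. -/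
def Fb (g : ℕ → ℕ) (s u : ℕ) : ℕ := lst (Qb g s u) (Cap s)

theorem Fb_eq {g : ℕ → ℕ} (hg : ∀ m, 0 < g m) (s u : ℕ) : Fb g s u = F g s u := by
  apply le_antisymm
  · by_contra hcon
    push Not at hcon
    rcases F_spec g s u with h | h
    · rw [h] at hcon
      exact absurd hcon (not_lt.2 (lst_le _ _))
    · have h1 := lst_min (Qb g s u) (Cap s) _ hcon
      rw [(Qb_iff hg).2 h] at h1
      cases h1
  · rcases Nat.lt_or_ge (lst (Qb g s u) (Cap s)) (Cap s) with h | h
    · exact F_le ((Qb_iff hg).1 (lst_spec _ _ h))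
    · exact (F_le_cap g s u).trans h

theorem Q_congr {g g' : ℕ → ℕ} {s u k : ℕ} (h : ∀ m ≤ s, g m = g' m) (hQ : Q g s u k) :
    Q g' s u k := by
  obtain ⟨m, hm, A, hA, B, hB, h1, h2⟩ := hQ
  exact ⟨m, hm, A, hA, B, hB, h1, by rw [← h m hm]; exact h2⟩

theorem F_congr_g {g g' : ℕ → ℕ} {s : ℕ} (u : ℕ) (h : ∀ m ≤ s, g m = g' m) :
    F g s u = F g' s u := by
  have key : ∀ {g g' : ℕ → ℕ}, (∀ m ≤ s, g m = g' m) → F g s u ≤ F g' s u := by
    intro g g' h
    rcases F_spec g' s u with h1 | h1
    · rw [h1]; exact F_le_cap _ _ _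
    · exact F_le (Q_congr (fun m hm => (h m hm).symm) h1)
  exact le_antisymm (key h) (key fun m hm => (h m hm).symm)

/-- One more than the last marked stage before `s`, or `0`. -/
def lc (ch : ℕ → Bool) : ℕ → ℕ
  | 0 => 0
  | s + 1 => bif ch s then s + 1 else lc ch s

theorem lc_le (ch : ℕ → Bool) (s : ℕ) : lc ch s ≤ s := by
  induction s with
  | zero => exact le_rfl
  | succ s ih =>
    simp only [lc]
    cases ch s <;> simp <;> omega

theorem Es_lc (ch : ℕ → Bool) (s u : ℕ) : Es ch s u =
    if lc ch s = 0 then 1 else F (Es ch (lc ch s - 1)) (lc ch s - 1) u := by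
  induction s with
  | zero => simp [Es, lc]
  | succ s ih =>
    simp only [Es, lc]
    cases hc : ch s
    · simpa using ih
    · simp

theorem E_lc (ch : ℕ → Bool) (u : ℕ) : E ch u =
    if lc ch u = 0 then 1 else F (E ch) (lc ch u - 1) u := by
  unfold E
  rw [Es_lc]
  split_ifs with h
  · rfl
  · exact F_congr_g u fun m hm => Es_eq_of_le ch le_rfl hm

/-- One step of the computation of the potential from a list of the previous values. -/
def stp (ch : ℕ → Bool) (l : List ℕ) : ℕ :=
  bif decide (lc ch l.length = 0) then 1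
  else Fb (fun m => (l[m]?).getD 1) (lc ch l.length - 1) l.length

theorem stp_eq (ch : ℕ → Bool) (n : ℕ) : stp ch ((List.range n).map (E ch)) = E ch n := by
  rw [E_lc]
  unfold stp
  simp only [List.length_map, List.length_range]
  by_cases h : lc ch n = 0
  · simp [h]
  · simp only [h, decide_false, cond_false, if_false]
    have hg : ∀ m : ℕ, 0 < (((List.range n).map (E ch))[m]?).getD 1 := by
      intro m
      rcases Nat.lt_or_ge m n with hm | hm
      · simp [hm, E_pos]
      · rw [List.getElem?_eq_none (by simpa using hm)]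
        simp
    rw [Fb_eq hg]
    refine F_congr_g n fun m hm => ?_
    have hm2 : m < n := by
      have := lc_le ch n
      omega
    simp [hm2]

section comp

variable {α : Type*} [Primcodable α]

theorem c_lc {ch : α → ℕ → Bool} (hch : Computable fun p : α × ℕ => ch p.1 p.2) {f : α → ℕ}
    (hf : Computable f) : Computable fun a => lc (ch a) (f a) := by
  have h := Computable.nat_rec (f := f) (g := fun _ : α => 0)
    (h := fun (a : α) (y : ℕ × ℕ) => bif ch a y.1 then y.1 + 1 else y.2) hf
    (Computable.const 0) (by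
      unfold Computable₂
      have h1 : Computable fun x : α × (ℕ × ℕ) => ch x.1 x.2.1 :=
        hch.comp (g := fun x : α × (ℕ × ℕ) => (x.1, x.2.1)) (by fun_prop)
      fun_prop)
  refine h.of_eq fun a => ?_
  generalize f a = n
  induction n with
  | zero => rfl
  | succ n ih => simp only [lc]; rw [← ih]

@[fun_prop] theorem c_getD {β : Type*} [Primcodable β] {f : α → Option β}
    {g : α → β} (hf : Computable f) (hg : Computable g) : Computable fun a => (f a).getD (g a) :=
  Computable.option_getD hf hg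

theorem c_Qb {g : α → ℕ → ℕ} (hg : Computable fun p : α × ℕ => g p.1 p.2) {s u k : α → ℕ}
    (hs : Computable s) (hu : Computable u) (hk : Computable k) :
    Computable fun a => Qb (g a) (s a) (u a) (k a) := by
  unfold Qb
  refine computable_exB (q := fun a m => exB (fun A => exB (fun B => decide (0 < A) &&
    (decide (0 < B) && (decide (A * u a % Mo (s a) = B * m % Mo (s a)) &&
      decide (g a m * (A * B) * (bif decide (A * u a = B * m) then 1 else 216) ≤ k a))))
        (k a + 1)) (k a + 1)) ?_ (by fun_prop)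
  refine computable_exB (α := α × ℕ) (q := fun x A => exB (fun B => decide (0 < A) &&
    (decide (0 < B) && (decide (A * u x.1 % Mo (s x.1) = B * x.2 % Mo (s x.1)) &&
      decide (g x.1 x.2 * (A * B) * (bif decide (A * u x.1 = B * x.2) then 1 else 216) ≤ k x.1))))
        (k x.1 + 1)) ?_ (by fun_prop)
  refine computable_exB (α := (α × ℕ) × ℕ) (q := fun x B => decide (0 < x.2) &&
    (decide (0 < B) && (decide (x.2 * u x.1.1 % Mo (s x.1.1) = B * x.1.2 % Mo (s x.1.1)) &&
      decide (g x.1.1 x.1.2 * (x.2 * B) * (bif decide (x.2 * u x.1.1 = B * x.1.2) then 1 else 216)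
        ≤ k x.1.1)))) ?_ (by fun_prop)
  unfold Computable₂
  have h1 : Computable fun x : ((α × ℕ) × ℕ) × ℕ => g x.1.1.1 x.1.1.2 :=
    hg.comp (g := fun x : ((α × ℕ) × ℕ) × ℕ => (x.1.1.1, x.1.1.2)) (by fun_prop)
  fun_prop

theorem c_Fb {g : α → ℕ → ℕ} (hg : Computable fun p : α × ℕ => g p.1 p.2) {s u : α → ℕ}
    (hs : Computable s) (hu : Computable u) :
    Computable fun a => Fb (g a) (s a) (u a) := by
  unfold Fb
  refine c_lst (q := fun a => Qb (g a) (s a) (u a)) ?_ (by fun_prop)
  refine c_Qb (α := α × ℕ) (g := fun x => g x.1) (s := fun x => s x.1) (u := fun x => u x.1)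
    (k := fun x => x.2) ?_ (by fun_prop) (by fun_prop) (by fun_prop)
  exact hg.comp (g := fun x : (α × ℕ) × ℕ => (x.1.1, x.2)) (by fun_prop)

theorem c_E {ch : α → ℕ → Bool} (hch : Computable fun p : α × ℕ => ch p.1 p.2) :
    Computable fun p : α × ℕ => E (ch p.1) p.2 := by
  have h : Computable₂ fun (a : α) (l : List ℕ) => (some (stp (ch a) l) : Option ℕ) := by
    unfold Computable₂ stp
    have h1 : Computable fun x : α × List ℕ => lc (ch x.1) x.2.length :=
      c_lc (ch := fun x : α × List ℕ => ch x.1)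
        (hch.comp (g := fun x : (α × List ℕ) × ℕ => (x.1.1, x.2)) (by fun_prop)) (by fun_prop)
    have h2 : Computable fun x : α × List ℕ =>
        Fb (fun m => (x.2[m]?).getD 1) (lc (ch x.1) x.2.length - 1) x.2.length :=
      c_Fb (g := fun (x : α × List ℕ) m => (x.2[m]?).getD 1) (by fun_prop) (by fun_prop)
        (by fun_prop)
    fun_prop
  exact Computable.nat_strong_rec (fun a n => E (ch a) n) h fun a n => by
    rw [stp_eq]

end comp

/-! ### The colouring -/

theorem c_va : Computable va := by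
  refine computable_of_graph ?_
  have h : REPred fun x : ℕ × ℕ => (x.1 = 0 ∧ x.2 = 0) ∨
      (x.1 ≠ 0 ∧ (x.1 % 7 ^ x.2 = 0 ∧ x.1 % 7 ^ (x.2 + 1) ≠ 0)) := by
    refine RE.or (RE.and (RE.eq ?_ ?_) (RE.eq ?_ ?_)) (RE.and (RE.ne ?_ ?_)
      (RE.and (RE.eq ?_ ?_) (RE.ne ?_ ?_))) <;> fun_prop
  refine h.of_eq fun x => ?_
  obtain ⟨n, e⟩ := x
  simp only
  rcases Nat.eq_zero_or_pos n with h0 | h0
  · subst h0
    simp [va, eq_comm]
  · constructor
    · rintro (⟨h, _⟩ | ⟨_, h1, h2⟩)
      · omega
      · obtain ⟨u, hu⟩ := Nat.dvd_of_mod_eq_zero h1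
        have h7 : ¬ 7 ∣ u := by
          rintro ⟨w, rfl⟩
          apply h2
          rw [hu, pow_succ]
          exact Nat.mod_eq_zero_of_dvd ⟨w, by ring⟩
        rw [hu, va_mul h7]
    · intro h
      right
      have h7 := not_dvd_ua h0
      have hn := eq_mul (n := n)
      rw [h] at hn
      refine ⟨h0.ne', Nat.mod_eq_zero_of_dvd ⟨_, hn.symm⟩, ?_⟩
      intro h3
      obtain ⟨w, hw⟩ := Nat.dvd_of_mod_eq_zero h3
      apply h7
      rw [← hn, pow_succ, mul_assoc] at hw
      exact ⟨w, Nat.eq_of_mul_eq_mul_left (by positivity) hw⟩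

theorem c_log : Computable (Nat.log 6) := by
  refine computable_of_graph ?_
  have h : REPred fun x : ℕ × ℕ => (x.1 = 0 ∧ x.2 = 0) ∨
      (x.1 ≠ 0 ∧ (6 ^ x.2 ≤ x.1 ∧ x.1 < 6 ^ (x.2 + 1))) := by
    refine RE.or (RE.and (RE.eq ?_ ?_) (RE.eq ?_ ?_)) (RE.and (RE.ne ?_ ?_)
      (RE.and (RE.le ?_ ?_) (RE.lt ?_ ?_))) <;> fun_prop
  refine h.of_eq fun x => ?_
  obtain ⟨n, e⟩ := x
  simp only
  rcases Nat.eq_zero_or_pos n with h0 | h0
  · subst h0
    simp [eq_comm]
  · rw [Nat.log_eq_iff (Or.inr ⟨by norm_num, h0.ne'⟩)]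
    constructor
    · rintro (⟨h, _⟩ | ⟨_, h1⟩)
      · omega
      · exact h1
    · intro h
      exact Or.inr ⟨h0.ne', h⟩

theorem c_chi : Computable chi := by
  unfold chi
  refine cite (cp_eq (by fun_prop) (by fun_prop)) (by fun_prop)
    (cite (cp_eq (by fun_prop) (by fun_prop)) (by fun_prop) (by fun_prop))

theorem c_col {W : ℕ → ℕ → Bool} (hW : Computable fun q : ℕ × ℕ => W q.1 q.2) :
    Computable fun n => col W n := by
  have hua : Computable ua := by
    unfold ua
    have := c_va
    fun_prop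
  have hch : Computable fun p : ℕ × ℕ => chW W p.1 p.2 := by
    unfold chW Ev
    refine computable_exB (q := fun (p : ℕ × ℕ) z => W (p.2 + 1) z && !(W p.2 z)) ?_
      (by fun_prop)
    unfold Computable₂
    have h1 := hW.comp (g := fun x : (ℕ × ℕ) × ℕ => (x.1.2 + 1, x.2)) (by fun_prop)
    have h2 := hW.comp (g := fun x : (ℕ × ℕ) × ℕ => (x.1.2, x.2)) (by fun_prop)
    dsimp only at h1 h2
    fun_prop
  have hE : Computable fun n => E (chW W (va n)) (ua n) :=
    (c_E (ch := chW W) hch).comp (g := fun n => (va n, ua n)) (c_va.pair hua)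
  have hl : Computable fun n => Nat.log 6 (E (chW W (va n)) (ua n)) := c_log.comp hE
  have hx : Computable fun n => chi (ua n) := c_chi.comp hua
  unfold col colv par
  fun_prop

/-- Solutions compute the universal computably enumerable set. -/
theorem computes {X : Set ℕ} (hX : X.Infinite)
    (hc2 : ∀ x ∈ X, ∀ y ∈ X, 0 < x → 0 < y → x ≠ y → col W0 x = col W0 (x + y))
    (hc3 : ∀ x ∈ X, ∀ y ∈ X, ∀ w ∈ X, 0 < x → 0 < y → 0 < w → x ≠ y → x ≠ w → y ≠ w →
      col W0 x = col W0 (x + y + w)) :
    REIn X (fun z => ∃ s, W0 s z = true) ∧ REIn X (fun z => ¬ ∃ s, W0 s z = true) := by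
  have hua : Computable ua := by
    unfold ua
    have := c_va
    fun_prop
  have hva := c_va
  have key : ∀ b : Bool, REIn X (fun z => ∃ h : ℕ, h ∈ X ∧ (0 < h ∧ z < va h ∧
      W0 (ua h) z = b)) := by
    intro b
    refine REIn.ex (S := fun z h => h ∈ X ∧ (0 < h ∧ z < va h ∧ W0 (ua h) z = b)) ?_
    refine (REIn.mem (f := fun x : ℕ × ℕ => x.2) (by fun_prop)).and (REIn.of_re ?_)
    refine RE.and (RE.lt (by fun_prop) (by fun_prop)) (RE.and (RE.lt (by fun_prop)
      (by fun_prop)) (RE.eq ?_ (by fun_prop)))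
    exact c_W0.comp (g := fun x : ℕ × ℕ => (ua x.2, x.1)) (by fun_prop)
  constructor
  · refine (key true).of_eq fun z => ?_
    constructor
    · rintro ⟨h, _, _, _, h1⟩; exact ⟨_, h1⟩
    · rintro ⟨s, hs⟩
      obtain ⟨h, hh, h0, hz⟩ := exists_far mon_W0 hX hc2 hc3 z
      exact ⟨h, hh, h0, hz, settled mon_W0 hX hc2 hc3 hh h0 hz hs⟩
  · refine (key false).of_eq fun z => ?_
    constructor
    · rintro ⟨h, hh, h0, hz, h1⟩ ⟨s, hs⟩
      rw [settled mon_W0 hX hc2 hc3 hh h0 hz hs] at h1
      cases h1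
    · intro hz'
      obtain ⟨h, hh, h0, hz⟩ := exists_far mon_W0 hX hc2 hc3 z
      refine ⟨h, hh, h0, hz, ?_⟩
      rw [← Bool.not_eq_true]
      exact fun hcc => hz' ⟨_, hcc⟩

end Pool.Agent.TH777.HT23
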