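import Mathlib

/-!
A multiplicatively Lipschitz potential.

For a sequence `ch` of marked stages, `Es ch s` is a function `E` on the natural numbers with
`E u ≤ A * B * E w` whenever `A * u = B * w`, whose value at `m + Mo s * w` is `216 * E m` if
`m ≤ s` and `s` is the last marked stage.
-/

namespace Pool.Agent.TH777.HT23

/-- The modulus (a power of `7`) used at stage `s`. -/
def Mo (s : ℕ) : ℕ := 2401 ^ (s + 1)

/-- The bound for the potential after stage `s`. -/
def Cap (s : ℕ) : ℕ := 216 ^ (s + 1)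

/-- Value `k` can be reached at `u` from a value of `g` at some `m ≤ s`. -/
def Q (g : ℕ → ℕ) (s u k : ℕ) : Prop :=
  ∃ m ≤ s, ∃ A > 0, ∃ B > 0, A * u % Mo s = B * m % Mo s ∧
    g m * (A * B) * (if A * u = B * m then 1 else 216) ≤ k

open Classical in
/-- The updated potential. -/
noncomputable def F (g : ℕ → ℕ) (s u : ℕ) : ℕ :=
  Nat.find (p := fun k => k = Cap s ∨ Q g s u k) ⟨Cap s, Or.inl rfl⟩

theorem F_le_cap (g : ℕ → ℕ) (s u : ℕ) : F g s u ≤ Cap s := by
  classical
  exact Nat.find_min' _ (Or.inl rfl)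

theorem F_le {g : ℕ → ℕ} {s u k : ℕ} (h : Q g s u k) : F g s u ≤ k := by
  classical
  exact Nat.find_min' _ (Or.inr h)

theorem F_spec (g : ℕ → ℕ) (s u : ℕ) : F g s u = Cap s ∨ Q g s u (F g s u) := by
  classical
  exact Nat.find_spec (p := fun k => k = Cap s ∨ Q g s u k) ⟨Cap s, Or.inl rfl⟩

theorem Q_mono {g : ℕ → ℕ} {s u k l : ℕ} (h : Q g s u k) (hkl : k ≤ l) : Q g s u l := by
  obtain ⟨m, hm, A, hA, B, hB, h1, h2⟩ := h
  exact ⟨m, hm, A, hA, B, hB, h1, h2.trans hkl⟩

theorem F_lip (g : ℕ → ℕ) (s : ℕ) {A B u w : ℕ} (hA : 0 < A) (hB : 0 < B)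
    (h : A * u = B * w) : F g s u ≤ A * B * F g s w := by
  rcases F_spec g s w with h1 | h1
  · rw [h1]
    calc F g s u ≤ Cap s := F_le_cap g s u
      _ = 1 * Cap s := (one_mul _).symm
      _ ≤ A * B * Cap s := Nat.mul_le_mul_right _ (Nat.mul_pos hA hB)
  · obtain ⟨m, hm, A', hA', B', hB', h2, h3⟩ := h1
    apply F_le
    refine ⟨m, hm, A' * A, Nat.mul_pos hA' hA, B * B', Nat.mul_pos hB hB', ?_, ?_⟩
    · have e1 : A' * A * u = B * (A' * w) := by
        rw [mul_assoc, h]; ring
      have e2 : B * B' * m = B * (B' * m) := by ring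
      rw [e1, e2, Nat.mul_mod, h2, ← Nat.mul_mod]
    · have e1 : A' * A * u = B * (A' * w) := by
        rw [mul_assoc, h]; ring
      have e2 : B * B' * m = B * (B' * m) := by ring
      have e3 : (A' * A * u = B * B' * m) ↔ (A' * w = B' * m) := by
        rw [e1, e2]
        exact ⟨fun h => Nat.eq_of_mul_eq_mul_left hB h, fun h => by rw [h]⟩
      have e4 : (if A' * A * u = B * B' * m then 1 else 216) =
          (if A' * w = B' * m then 1 else 216) := by
        simp only [e3]
      rw [e4]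
      calc g m * (A' * A * (B * B')) * (if A' * w = B' * m then 1 else 216)
          = A * B * (g m * (A' * B') * (if A' * w = B' * m then 1 else 216)) := by ring
        _ ≤ A * B * F g s w := Nat.mul_le_mul_left _ h3

theorem F_pos {g : ℕ → ℕ} (hg : ∀ m, 0 < g m) (s u : ℕ) : 0 < F g s u := by
  rcases F_spec g s u with h | h
  · rw [h]; exact Nat.pow_pos (by norm_num)
  · obtain ⟨m, _, A, hA, B, hB, _, h3⟩ := h
    refine lt_of_lt_of_le ?_ h3
    have := hg m
    split_ifs <;> positivity

theorem lt_Mo {s A m : ℕ} (hA : A ≤ Cap s) (hm : m ≤ s) : A * m < Mo s := by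
  have h1 : m < 2 ^ (s + 1) := lt_of_le_of_lt hm
    (lt_trans (Nat.lt_succ_self s) (Nat.lt_pow_self (by norm_num)))
  calc A * m ≤ Cap s * m := Nat.mul_le_mul_right _ hA
    _ < Cap s * 2 ^ (s + 1) := Nat.mul_lt_mul_of_pos_left h1 (Nat.pow_pos (by norm_num))
    _ = 432 ^ (s + 1) := by unfold Cap; rw [← mul_pow]; norm_num
    _ ≤ Mo s := Nat.pow_le_pow_left (by norm_num) _

/-- A small reachable value gives small multipliers. -/
theorem small_of_le {g : ℕ → ℕ} (hg : ∀ m, 0 < g m) {m A B d k : ℕ} (hA : 0 < A)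
    (hB : 0 < B) (hd : 0 < d) (h : g m * (A * B) * d ≤ k) : A ≤ k ∧ B ≤ k := by
  have h1 := hg m
  have h2 : A * B ≤ k := by
    calc A * B = 1 * (A * B) * 1 := by ring
      _ ≤ g m * (A * B) * d := Nat.mul_le_mul (Nat.mul_le_mul_right _ h1) hd
      _ ≤ k := h
  exact ⟨le_trans (Nat.le_mul_of_pos_right _ hB) h2, le_trans (Nat.le_mul_of_pos_left _ hA) h2⟩

/-- The potential after the stages before `s`. -/
noncomputable def Es (ch : ℕ → Bool) : ℕ → ℕ → ℕ
  | 0, _ => 1
  | s + 1, u => if ch s = true then F (Es ch s) s u else Es ch s u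

variable {ch : ℕ → Bool}

theorem Es_pos (ch : ℕ → Bool) (s u : ℕ) : 0 < Es ch s u := by
  induction s generalizing u with
  | zero => exact Nat.one_pos
  | succ s ih =>
    simp only [Es]
    split_ifs
    · exact F_pos ih s u
    · exact ih u

theorem Es_le (ch : ℕ → Bool) (s u : ℕ) : Es ch s u ≤ 216 ^ s := by
  induction s with
  | zero => exact le_rfl
  | succ s ih =>
    simp only [Es]
    split_ifs
    · exact F_le_cap _ s u
    · exact ih.trans (Nat.pow_le_pow_right (by norm_num) (Nat.le_succ s))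

theorem Es_lip (ch : ℕ → Bool) (s : ℕ) {A B u w : ℕ} (hA : 0 < A) (hB : 0 < B)
    (h : A * u = B * w) : Es ch s u ≤ A * B * Es ch s w := by
  induction s with
  | zero =>
    simp only [Es]
    rw [mul_one]
    exact Nat.mul_pos hA hB
  | succ s ih =>
    simp only [Es]
    split_ifs
    · exact F_lip _ s hA hB h
    · exact ih

/-- The potential at `u` does not change after stage `u`. -/
theorem Es_stable (ch : ℕ → Bool) {s u : ℕ} (hu : u ≤ s) : Es ch (s + 1) u = Es ch s u := by
  simp only [Es]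
  split_ifs with hc
  · apply le_antisymm
    · apply F_le
      exact ⟨u, hu, 1, Nat.one_pos, 1, Nat.one_pos, rfl, by simp⟩
    · rcases F_spec (Es ch s) s u with h | h
      · rw [h]
        exact (Es_le ch s u).trans (Nat.pow_le_pow_right (by norm_num) (Nat.le_succ s))
      · obtain ⟨m, hm, A, hA, B, hB, h2, h3⟩ := h
        have hcap := F_le_cap (Es ch s) s u
        obtain ⟨hA2, hB2⟩ := small_of_le (Es_pos ch s) hA hB (by split_ifs <;> norm_num) h3
        have e1 := lt_Mo (hA2.trans hcap) hu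
        have e2 := lt_Mo (hB2.trans hcap) hm
        rw [Nat.mod_eq_of_lt e1, Nat.mod_eq_of_lt e2] at h2
        rw [if_pos h2, mul_one] at h3
        refine le_trans ?_ h3
        rw [mul_comm]
        exact Es_lip ch s hA hB h2
  · rfl

theorem Es_eq_of_le (ch : ℕ → Bool) {s t u : ℕ} (hu : u ≤ s) (hst : s ≤ t) :
    Es ch t u = Es ch s u := by
  induction t, hst using Nat.le_induction with
  | base => rfl
  | succ t ht ih => rw [Es_stable ch (hu.trans ht), ih]

/-- At the last marked stage, going far multiplies the potential by `216`. -/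
theorem Es_null {s m w : ℕ} (hc : ch s = true) (hm : m ≤ s) (hw : 0 < w) :
    Es ch (s + 1) (m + Mo s * w) = 216 * Es ch s m := by
  have hMo : 0 < Mo s := Nat.pow_pos (by norm_num)
  simp only [Es]
  rw [if_pos hc]
  have hbig : Mo s ≤ m + Mo s * w :=
    le_trans (Nat.le_mul_of_pos_right _ hw) (Nat.le_add_left _ _)
  apply le_antisymm
  · apply F_le
    refine ⟨m, hm, 1, Nat.one_pos, 1, Nat.one_pos, ?_, ?_⟩
    · rw [one_mul, one_mul, Nat.add_mul_mod_self_left]
    · have hne : ¬ (1 * (m + Mo s * w) = 1 * m) := by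
        have : 0 < Mo s * w := Nat.mul_pos hMo hw
        omega
      rw [if_neg hne]
      exact le_of_eq (by ring)
  · rcases F_spec (Es ch s) s (m + Mo s * w) with h | h
    · rw [h]
      calc 216 * Es ch s m ≤ 216 * 216 ^ s := Nat.mul_le_mul_left _ (Es_le ch s m)
        _ = Cap s := by unfold Cap; rw [pow_succ, mul_comm]
    · obtain ⟨m', hm', A, hA, B, hB, h2, h3⟩ := h
      have hcap := F_le_cap (Es ch s) s (m + Mo s * w)
      obtain ⟨hA2, hB2⟩ := small_of_le (Es_pos ch s) hA hB (by split_ifs <;> norm_num) h3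
      have e1 := lt_Mo (hA2.trans hcap) hm
      have e2 := lt_Mo (hB2.trans hcap) hm'
      have e3 : A * (m + Mo s * w) = A * m + Mo s * (A * w) := by ring
      have hne : ¬ (A * (m + Mo s * w) = B * m') := by
        intro hcc
        have : Mo s ≤ A * (m + Mo s * w) := le_trans hbig (Nat.le_mul_of_pos_left _ hA)
        omega
      rw [if_neg hne] at h3
      rw [e3, Nat.add_mul_mod_self_left, Nat.mod_eq_of_lt e1, Nat.mod_eq_of_lt e2] at h2
      refine le_trans ?_ h3
      have e4 := Es_lip ch s hA hB h2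
      calc 216 * Es ch s m ≤ 216 * (A * B * Es ch s m') := Nat.mul_le_mul_left _ e4
        _ = Es ch s m' * (A * B) * 216 := by ring

/-- Beyond `Mo s` the updated potential only depends on the residue. -/
theorem F_congr {g : ℕ → ℕ} (hg : ∀ m, 0 < g m) {s u v : ℕ} (hu : Mo s ≤ u) (hv : Mo s ≤ v)
    (h : u % Mo s = v % Mo s) : F g s u ≤ F g s v := by
  rcases F_spec g s v with h1 | h1
  · rw [h1]; exact F_le_cap g s u
  · obtain ⟨m, hm, A, hA, B, hB, h2, h3⟩ := h1
    have hcap := F_le_cap g s v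
    obtain ⟨hA2, hB2⟩ := small_of_le hg hA hB (by split_ifs <;> norm_num) h3
    have e2 := lt_Mo (hB2.trans hcap) hm
    apply F_le
    refine ⟨m, hm, A, hA, B, hB, ?_, ?_⟩
    · rw [← h2, Nat.mul_mod, h, ← Nat.mul_mod]
    · have n1 : ¬ (A * u = B * m) := by
        intro hcc
        have : u ≤ A * u := Nat.le_mul_of_pos_left _ hA
        omega
      have n2 : ¬ (A * v = B * m) := by
        intro hcc
        have : v ≤ A * v := Nat.le_mul_of_pos_left _ hA
        omega
      rw [if_neg n2] at h3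
      rw [if_neg n1]
      exact h3

theorem F_periodic {g : ℕ → ℕ} (hg : ∀ m, 0 < g m) {s u v : ℕ} (hu : Mo s ≤ u)
    (hv : Mo s ≤ v) (h : u % Mo s = v % Mo s) : F g s u = F g s v :=
  le_antisymm (F_congr hg hu hv h) (F_congr hg hv hu h.symm)

/-- If no stage in `[s, t)` is marked, nothing changes. -/
theorem Es_const {s t : ℕ} (hst : s ≤ t) (h : ∀ r, s ≤ r → r < t → ch r = false) (u : ℕ) :
    Es ch t u = Es ch s u := by
  induction t, hst using Nat.le_induction with
  | base => rfl
  | succ t ht ih =>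
    simp only [Es]
    rw [h t ht (Nat.lt_succ_self t)]
    simp only [Bool.false_eq_true, if_false]
    exact ih fun r h1 h2 => h r h1 (h2.trans (Nat.lt_succ_self t))

/-- The final potential. -/
noncomputable def E (ch : ℕ → Bool) (u : ℕ) : ℕ := Es ch u u

theorem E_eq (ch : ℕ → Bool) {u s : ℕ} (h : u ≤ s) : E ch u = Es ch s u :=
  (Es_eq_of_le ch le_rfl h).symm

theorem E_pos (ch : ℕ → Bool) (u : ℕ) : 0 < E ch u := Es_pos ch u u

theorem E_lip (ch : ℕ → Bool) {A B u w : ℕ} (hA : 0 < A) (hB : 0 < B)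
    (h : A * u = B * w) : E ch u ≤ A * B * E ch w := by
  rw [E_eq ch (le_max_left u w), E_eq ch (le_max_right u w)]
  exact Es_lip ch _ hA hB h

end Pool.Agent.TH777.HT23
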